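import Mathlib

/-!
Simultaneous strong exposure by projection normals for two compact convex sets of a real
Hilbert space (problem MP_3684f0_an, Q1: the statement is proved).

Idea: maximise `G (y₁, y₂) = ‖y₁‖² / 2 + 2 ⟪y₁, y₂⟫ + ‖y₂‖² / 2` over `C₁ × C₂` and put
`x = 2 (y₁ + y₂)`.  The partial gradients of `G` are exactly `x - y₁` and `x - y₂`, and `G` is
strongly convex in each variable, so that the first order conditions at a maximiser give
`⟪x - yᵢ, y - yᵢ⟫ ≤ - ‖y - yᵢ‖² / 2` for all `y ∈ Cᵢ`.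
-/

open scoped InnerProductSpace
open Filter Topology

namespace Pool.Agent.Results.MP_3684f0_an.StrongExposure

/-- `p` is the metric projection of `x` onto `C`: `p` lies in `C`, it is nearest to `x` among
the points of `C`, and it is the unique such point. -/
def IsMetricProjection {H : Type*} [NormedAddCommGroup H] (C : Set H) (x p : H) : Prop :=
  p ∈ C ∧ (∀ y ∈ C, ‖x - p‖ ≤ ‖x - y‖) ∧
    ∀ q ∈ C, (∀ y ∈ C, ‖x - q‖ ≤ ‖x - y‖) → q = p

/-- The function `f` (below always a continuous linear functional) strongly exposes `p` in `C`: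
the point `p` lies in `C`, `f p` is the supremum of `f` over `C`, and every sequence in `C` along
which `f` tends to its supremum over `C` converges in norm to `p`. -/
def StronglyExposedBy {H : Type*} [NormedAddCommGroup H] (C : Set H) (p : H) (f : H → ℝ) :
    Prop :=
  p ∈ C ∧ IsLUB (f '' C) (f p) ∧
    ∀ y : ℕ → H, (∀ k, y k ∈ C) →
      Tendsto (fun k => f (y k)) atTop (𝓝 (sSup (f '' C))) → Tendsto y atTop (𝓝 p)

/-- The vector `v` strongly exposes `p` in `C`, i.e. the continuous linear functional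
`y ↦ ⟪v, y⟫` does. -/
def VectorStronglyExposes {H : Type*} [NormedAddCommGroup H] [InnerProductSpace ℝ H]
    (C : Set H) (p v : H) : Prop :=
  StronglyExposedBy C p (fun y => ⟪v, y⟫_ℝ)

theorem key {H : Type*} [NormedAddCommGroup H] [InnerProductSpace ℝ H]
    (C : Set H) (x p : H) (hp : p ∈ C)
    (h : ∀ y ∈ C, ⟪x - p, y - p⟫_ℝ ≤ - (‖y - p‖ ^ 2 / 2)) :
    IsMetricProjection C x p ∧ VectorStronglyExposes C p (x - p) := by
  have hsq : ∀ y ∈ C, ‖x - p‖ ^ 2 + 2 * ‖y - p‖ ^ 2 ≤ ‖x - y‖ ^ 2 := by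
    intro y hy
    have h1 : x - y = (x - p) - (y - p) := by abel
    have h2 := norm_sub_sq_real (x - p) (y - p)
    rw [← h1] at h2
    have h3 := h y hy
    nlinarith [h3, h2]
  have hle : ∀ y ∈ C, ‖x - p‖ ≤ ‖x - y‖ := by
    intro y hy
    have h1 := hsq y hy
    have h2 : ‖x - p‖ ^ 2 ≤ ‖x - y‖ ^ 2 := by nlinarith [sq_nonneg ‖y - p‖]
    exact le_of_sq_le_sq h2 (norm_nonneg _)
  have hlub : IsLUB ((fun y => ⟪x - p, y⟫_ℝ) '' C) ((fun y => ⟪x - p, y⟫_ℝ) p) := by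
    refine ⟨?_, fun b hb => hb ⟨p, hp, rfl⟩⟩
    rintro _ ⟨y, hy, rfl⟩
    have h1 := h y hy
    rw [inner_sub_right] at h1
    have h2 := sq_nonneg ‖y - p‖
    show ⟪x - p, y⟫_ℝ ≤ ⟪x - p, p⟫_ℝ
    linarith
  refine ⟨⟨hp, hle, ?_⟩, hp, hlub, ?_⟩
  · intro q hq hq'
    have h1 := hsq q hq
    have h2 := hq' p hp
    have h3 : ‖x - q‖ ^ 2 ≤ ‖x - p‖ ^ 2 := by
      have := norm_nonneg (x - q)
      nlinarith
    have h4 : ‖q - p‖ ^ 2 ≤ 0 := by nlinarith
    have h5 : ‖q - p‖ = 0 := by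
      have := norm_nonneg (q - p)
      nlinarith
    exact sub_eq_zero.mp (norm_eq_zero.mp h5)
  · intro y hy ht
    rw [hlub.csSup_eq ⟨_, ⟨p, hp, rfl⟩⟩] at ht
    have ht2 : Tendsto (fun k => ⟪x - p, y k - p⟫_ℝ) atTop (𝓝 0) := by
      have h1 : Tendsto (fun k => ⟪x - p, y k⟫_ℝ - ⟪x - p, p⟫_ℝ) atTop
        (𝓝 (⟪x - p, p⟫_ℝ - ⟪x - p, p⟫_ℝ)) := ht.sub tendsto_const_nhds
      rw [sub_self] at h1
      refine h1.congr (fun k => ?_)
      rw [inner_sub_right]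
    have ht3 : Tendsto (fun k => ‖y k - p‖ ^ 2) atTop (𝓝 0) := by
      have hup : Tendsto (fun k => -2 * ⟪x - p, y k - p⟫_ℝ) atTop (𝓝 0) := by
        simpa using ht2.const_mul (-2)
      refine squeeze_zero (fun k => sq_nonneg _) (fun k => ?_) hup
      have := h (y k) (hy k)
      linarith
    have ht4 : Tendsto (fun k => ‖y k - p‖) atTop (𝓝 0) := by
      have h1 : Tendsto (fun k => Real.sqrt (‖y k - p‖ ^ 2)) atTop (𝓝 (Real.sqrt 0)) :=
        (Real.continuous_sqrt.tendsto 0).comp ht3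
      simpa [Real.sqrt_sq] using h1
    exact tendsto_iff_norm_sub_tendsto_zero.mpr ht4

/-- **Q1 of MP_3684f0_an is true.**  For every real Hilbert space `H` and all nonempty compact
convex sets `C₁, C₂ ⊆ H` there is a point `x` such that, with `pᵢ` the metric projection of `x`
onto `Cᵢ`, the vector `x - pᵢ` strongly exposes `pᵢ` in `Cᵢ`, for `i = 1` and `i = 2`. -/
theorem result (H : Type*) [NormedAddCommGroup H] [InnerProductSpace ℝ H] [CompleteSpace H]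
    (C₁ C₂ : Set H) (hne₁ : C₁.Nonempty) (hne₂ : C₂.Nonempty)
    (hcomp₁ : IsCompact C₁) (hcomp₂ : IsCompact C₂)
    (_hconv₁ : Convex ℝ C₁) (_hconv₂ : Convex ℝ C₂) :
    ∃ x p₁ p₂ : H,
      IsMetricProjection C₁ x p₁ ∧ IsMetricProjection C₂ x p₂ ∧
      VectorStronglyExposes C₁ p₁ (x - p₁) ∧ VectorStronglyExposes C₂ p₂ (x - p₂) := by
  have hcont : Continuous (fun z : H × H =>
      ‖z.1‖ ^ 2 / 2 + 2 * ⟪z.1, z.2⟫_ℝ + ‖z.2‖ ^ 2 / 2) := by fun_prop
  obtain ⟨z, hz, hmax⟩ := (hcomp₁.prod hcomp₂).exists_isMaxOn (hne₁.prod hne₂)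
    hcont.continuousOn
  obtain ⟨y₁, y₂⟩ := z
  have hy₁ : y₁ ∈ C₁ := hz.1
  have hy₂ : y₂ ∈ C₂ := hz.2
  have k₁ := key C₁ ((2 : ℝ) • (y₁ + y₂)) y₁ hy₁ (by
    intro y hy
    have h := hmax (show ((y, y₂) : H × H) ∈ C₁ ×ˢ C₂ from ⟨hy, hy₂⟩)
    simp only [Set.mem_ofPred_eq] at h
    have e1 : (2 : ℝ) • (y₁ + y₂) - y₁ = y₁ + (2 : ℝ) • y₂ := by
      rw [smul_add, two_smul ℝ y₁]; abel
    rw [e1, inner_add_left, inner_smul_left, inner_sub_right, inner_sub_right,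
      norm_sub_sq_real, real_inner_self_eq_norm_sq]
    rw [real_inner_comm y₂ y, real_inner_comm y₂ y₁] at h
    rw [real_inner_comm y₁ y]
    simp only [conj_trivial]
    nlinarith [h])
  have k₂ := key C₂ ((2 : ℝ) • (y₁ + y₂)) y₂ hy₂ (by
    intro y hy
    have h := hmax (show ((y₁, y) : H × H) ∈ C₁ ×ˢ C₂ from ⟨hy₁, hy⟩)
    simp only [Set.mem_ofPred_eq] at h
    have e1 : (2 : ℝ) • (y₁ + y₂) - y₂ = y₂ + (2 : ℝ) • y₁ := by
      rw [smul_add, two_smul ℝ y₂]; abel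
    rw [e1, inner_add_left, inner_smul_left, inner_sub_right, inner_sub_right,
      norm_sub_sq_real, real_inner_self_eq_norm_sq]
    rw [real_inner_comm y₂ y]
    simp only [conj_trivial]
    nlinarith [h])
  exact ⟨(2 : ℝ) • (y₁ + y₂), y₁, y₂, k₁.1, k₂.1, k₁.2, k₂.2⟩

end Pool.Agent.Results.MP_3684f0_an.StrongExposure
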